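import Mathlib

/-!
# Lower bound for the Gromov-Hausdorff distance between `[-1, 1]` and a ball of dimension `≥ 2`
-/

set_option autoImplicit false

open Metric Set

namespace Pool.Agent.K4H96.GH

/-- The closed unit ball of Euclidean `n`-space, with the Euclidean distance. -/
abbrev Ball (n : ℕ) : Type := Metric.closedBall (0 : EuclideanSpace ℝ (Fin n)) 1

instance instCompactBall (n : ℕ) : CompactSpace (Ball n) :=
  isCompact_iff_compactSpace.mp (isCompact_closedBall _ _)

instance instNonemptyBall (n : ℕ) : Nonempty (Ball n) :=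
  ⟨⟨0, by simp⟩⟩

/-- If the Gromov-Hausdorff distance is less than `r`, there is a map of distortion `< 2r`. -/
theorem exists_map {X Y : Type} [MetricSpace X] [CompactSpace X] [Nonempty X]
    [MetricSpace Y] [CompactSpace Y] [Nonempty Y] {r : ℝ}
    (h : GromovHausdorff.ghDist X Y < r) :
    ∃ T : Y → X, ∀ y y' : Y, |dist (T y) (T y') - dist y y'| ≤ 2 * r := by
  classical
  have hl := GromovHausdorff.isometry_optimalGHInjl X Y
  have hr := GromovHausdorff.isometry_optimalGHInjr X Y
  have hfin : Metric.hausdorffEDist (range (GromovHausdorff.optimalGHInjl X Y))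
      (range (GromovHausdorff.optimalGHInjr X Y)) ≠ ⊤ := by
    apply hausdorffEDist_ne_top_of_nonempty_of_bounded
    · exact range_nonempty _
    · exact range_nonempty _
    · exact (isCompact_range hl.continuous).isBounded
    · exact (isCompact_range hr.continuous).isBounded
  have key : ∀ y : Y, ∃ x : X, dist (GromovHausdorff.optimalGHInjl X Y x)
      (GromovHausdorff.optimalGHInjr X Y y) < r := by
    intro y
    have h1 : hausdorffDist (range (GromovHausdorff.optimalGHInjl X Y))
        (range (GromovHausdorff.optimalGHInjr X Y)) < r := by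
      rw [GromovHausdorff.hausdorffDist_optimal]; exact h
    obtain ⟨z, ⟨x, rfl⟩, hz⟩ := exists_dist_lt_of_hausdorffDist_lt' (mem_range_self y) h1 hfin
    exact ⟨x, hz⟩
  choose T hT using key
  refine ⟨T, fun y y' => ?_⟩
  rw [← hl.dist_eq (T y) (T y'), ← hr.dist_eq y y']
  have a1 := hT y
  have a2 := hT y'
  set A := GromovHausdorff.optimalGHInjl X Y (T y)
  set A' := GromovHausdorff.optimalGHInjl X Y (T y')
  set B := GromovHausdorff.optimalGHInjr X Y y
  set B' := GromovHausdorff.optimalGHInjr X Y y'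
  have t1 : dist A A' ≤ dist A B + dist B B' + dist B' A' := dist_triangle4 _ _ _ _
  have t2 : dist B B' ≤ dist B A + dist A A' + dist A' B' := dist_triangle4 _ _ _ _
  rw [dist_comm B' A'] at t1
  rw [dist_comm B A] at t2
  rw [abs_le]
  constructor <;> linarith

theorem dist_ball1 (x y : Ball 1) : dist x y = |x.1 0 - y.1 0| := by
  rw [Subtype.dist_eq, EuclideanSpace.dist_eq]
  simp [Real.dist_eq, Real.sqrt_sq_eq_abs]

/-- The unit circle in the first two coordinates. -/
noncomputable def circ (m : ℕ) (hm : 2 ≤ m) (θ : ℝ) : EuclideanSpace ℝ (Fin m) :=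
  Real.cos θ • EuclideanSpace.single (⟨0, by omega⟩ : Fin m) (1 : ℝ) +
    Real.sin θ • EuclideanSpace.single (⟨1, by omega⟩ : Fin m) (1 : ℝ)

theorem norm_circ (m : ℕ) (hm : 2 ≤ m) (θ : ℝ) : ‖circ m hm θ‖ = 1 := by
  have h : ‖circ m hm θ‖ ^ 2 = 1 := by
    unfold circ
    rw [@norm_add_sq_real]
    simp only [inner_smul_left, inner_smul_right, norm_smul]
    have h0 : inner ℝ (EuclideanSpace.single (⟨0, by omega⟩ : Fin m) (1 : ℝ))
        (EuclideanSpace.single (⟨1, by omega⟩ : Fin m) (1 : ℝ)) = (0 : ℝ) := by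
      simp [EuclideanSpace.inner_single_left]
    rw [h0]
    simp [sq_abs]
  have h2 : 0 ≤ ‖circ m hm θ‖ := norm_nonneg _
  nlinarith

theorem circ_add_pi (m : ℕ) (hm : 2 ≤ m) (θ : ℝ) : circ m hm (θ + Real.pi) = - circ m hm θ := by
  unfold circ
  simp [Real.cos_add_pi, Real.sin_add_pi]
  abel

theorem dist_circ_le (m : ℕ) (hm : 2 ≤ m) (θ φ : ℝ) :
    dist (circ m hm θ) (circ m hm φ) ≤ 2 * |θ - φ| := by
  have e : circ m hm θ - circ m hm φ =
      (Real.cos θ - Real.cos φ) • EuclideanSpace.single (⟨0, by omega⟩ : Fin m) (1 : ℝ) +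
      (Real.sin θ - Real.sin φ) • EuclideanSpace.single (⟨1, by omega⟩ : Fin m) (1 : ℝ) := by
    unfold circ
    module
  rw [dist_eq_norm, e]
  refine (norm_add_le _ _).trans ?_
  rw [norm_smul, norm_smul]
  simp only [Real.norm_eq_abs, PiLp.norm_single, norm_one, mul_one]
  have h1 : |Real.cos θ - Real.cos φ| ≤ |θ - φ| := by
    have := Real.abs_cos_sub_cos_le θ φ
    exact this
  have h2 : |Real.sin θ - Real.sin φ| ≤ |θ - φ| := by
    have := Real.abs_sin_sub_sin_le θ φ
    exact this
  linarith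

/-- The point of the ball. -/
noncomputable def pt (m : ℕ) (hm : 2 ≤ m) (θ : ℝ) : Ball m :=
  ⟨circ m hm θ, by rw [mem_closedBall_zero_iff, norm_circ]⟩

theorem lower (m : ℕ) (hm : 2 ≤ m) : 2 / 3 ≤ GromovHausdorff.ghDist (Ball 1) (Ball m) := by
  by_contra hlt
  push Not at hlt
  set G := GromovHausdorff.ghDist (Ball 1) (Ball m) with hG
  set r := (G + 2 / 3) / 2 with hrdef
  have hr1 : G < r := by rw [hrdef]; linarith
  have hr2 : r < 2 / 3 := by rw [hrdef]; linarith
  obtain ⟨T, hT⟩ := exists_map (X := Ball 1) (Y := Ball m) hr1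
  set t : ℝ → ℝ := fun θ => (T (pt m hm θ)).1 0 with ht
  have hd : ∀ θ φ : ℝ, |(|t θ - t φ|) - dist (circ m hm θ) (circ m hm φ)| ≤ 2 * r := by
    intro θ φ
    have := hT (pt m hm θ) (pt m hm φ)
    rw [dist_ball1, Subtype.dist_eq] at this
    exact this
  have hper : ∀ θ : ℝ, t (θ + Real.pi + Real.pi) = t θ := by
    intro θ
    have : pt m hm (θ + Real.pi + Real.pi) = pt m hm θ := by
      apply Subtype.ext
      show circ m hm (θ + Real.pi + Real.pi) = circ m hm θ
      rw [circ_add_pi, circ_add_pi, neg_neg]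
    simp only [ht, this]
  -- antipodal
  have hanti : ∀ θ : ℝ, 2 - 2 * r ≤ |t θ - t (θ + Real.pi)| := by
    intro θ
    have h1 := hd θ (θ + Real.pi)
    have h2 : dist (circ m hm θ) (circ m hm (θ + Real.pi)) = 2 := by
      rw [circ_add_pi, dist_eq_norm, sub_neg_eq_add, ← two_smul ℝ, norm_smul, norm_circ]
      norm_num
    rw [h2, abs_le] at h1
    linarith [h1.1]
  have hnear : ∀ θ φ : ℝ, |t θ - t φ| ≤ 2 * r + 2 * |θ - φ| := by
    intro θ φ
    have h1 := hd θ φ
    have h2 := dist_circ_le m hm θ φ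
    rw [abs_le] at h1
    linarith [h1.2]
  have hfar : ∀ θ φ : ℝ, 2 - 2 * r - 2 * |θ - φ| ≤ |t θ - t (φ + Real.pi)| := by
    intro θ φ
    have h1 := hd θ (φ + Real.pi)
    have h2 := dist_circ_le m hm θ φ
    have h3 : dist (circ m hm φ) (circ m hm (φ + Real.pi)) = 2 := by
      rw [circ_add_pi, dist_eq_norm, sub_neg_eq_add, ← two_smul ℝ, norm_smul, norm_circ]
      norm_num
    have h4 := dist_triangle (circ m hm φ) (circ m hm θ) (circ m hm (φ + Real.pi))
    rw [dist_comm (circ m hm φ) (circ m hm θ)] at h4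
    rw [abs_le] at h1
    linarith [h1.1]
  -- a fine subdivision
  obtain ⟨N, hN⟩ := exists_nat_gt (4 * Real.pi / (4 - 6 * r))
  have hpos : 0 < 4 - 6 * r := by linarith
  have hN0 : 0 < (N : ℝ) := lt_trans (by positivity) hN
  have hstep : 4 * (Real.pi / N) < 4 - 6 * r := by
    rw [div_lt_iff₀ hpos] at hN
    rw [← mul_div_assoc, div_lt_iff₀ hN0]
    linarith
  set a : ℕ → ℝ := fun k => k * (Real.pi / N) with ha
  have haN : a N = a 0 + Real.pi := by
    simp only [ha]; field_simp; simp
  have hsucc : ∀ k : ℕ, |a k - a (k + 1)| = Real.pi / N := by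
    intro k
    simp only [ha]
    have : (k : ℝ) * (Real.pi / N) - ((k + 1 : ℕ) : ℝ) * (Real.pi / N) = - (Real.pi / N) := by
      push_cast; ring
    rw [this, abs_neg, abs_of_pos (by positivity)]
  -- core contradiction
  have core : ∀ θ φ : ℝ, |θ - φ| ≤ Real.pi / N → t (θ + Real.pi) < t θ →
      t φ < t (φ + Real.pi) → False := by
    intro θ φ hθφ h1 h2
    have b1 := hanti θ
    have b2 := hanti φ
    rw [abs_of_pos (by linarith)] at b1
    rw [abs_of_neg (by linarith)] at b2
    have b3 := hfar θ φ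
    have b4 := hnear θ φ
    have b5 := hnear (θ + Real.pi) (φ + Real.pi)
    rw [show θ + Real.pi - (φ + Real.pi) = θ - φ by ring] at b5
    rw [abs_le] at b4 b5
    rcases le_total 0 (t θ - t (φ + Real.pi)) with h | h
    · rw [abs_of_nonneg h] at b3
      linarith [b4.2]
    · rw [abs_of_nonpos h] at b3
      linarith [b5.1]
  have hne : ∀ θ : ℝ, t (θ + Real.pi) ≠ t θ := by
    intro θ h
    have := hanti θ
    rw [h, sub_self, abs_zero] at this
    linarith
  have hflip : ∀ k : ℕ, (t (a k + Real.pi) < t (a k) ↔ t (a (k + 1) + Real.pi) < t (a (k + 1))) := by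
    intro k
    constructor
    · intro h
      by_contra h'
      exact core (a k) (a (k + 1)) (hsucc k).le h (lt_of_le_of_ne (not_lt.mp h') (hne _).symm)
    · intro h
      by_contra h'
      exact core (a (k + 1)) (a k) (by rw [abs_sub_comm]; exact (hsucc k).le) h
        (lt_of_le_of_ne (not_lt.mp h') (hne _).symm)
  have hall : ∀ k : ℕ, (t (a 0 + Real.pi) < t (a 0) ↔ t (a k + Real.pi) < t (a k)) := by
    intro k
    induction k with
    | zero => exact Iff.rfl
    | succ k ih => exact ih.trans (hflip k)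
  have hfin := hall N
  rw [haN, hper] at hfin
  rcases lt_trichotomy (t (a 0 + Real.pi)) (t (a 0)) with h | h | h
  · exact absurd (hfin.mp h) (not_lt.mpr h.le)
  · exact hne _ h
  · exact absurd (hfin.mpr h) (not_lt.mpr h.le)

end Pool.Agent.K4H96.GH
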