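import Mathlib

/-!
# Two sets whose convex hulls meet
-/

set_option autoImplicit false

open Finset

namespace Pool.Agent.K4H96.GH

/-- Euclidean space. -/
abbrev EE (n : ℕ) : Type := EuclideanSpace ℝ (Fin n)

/-- If the convex hulls of `P` and `Q` meet, then the distances between `P` and `Q` cannot all be
much larger than the distances inside `P` and inside `Q`. -/
theorem sparse {n : ℕ} (P Q : Set (EE n)) (z : EE n)
    (hP : z ∈ convexHull ℝ P) (hQ : z ∈ convexHull ℝ Q) {δ e : ℝ} (hδ : 0 ≤ δ) (he : 0 ≤ e)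
    (h1 : ∀ p ∈ P, ∀ q ∈ Q, δ ≤ dist p q) (h2 : ∀ p ∈ P, ∀ q ∈ P, dist p q ≤ e)
    (h3 : ∀ p ∈ Q, ∀ q ∈ Q, dist p q ≤ e) :
    δ ^ 2 ≤ e ^ 2 * (n / (n + 2)) := by
  classical
  let s : Set (EE n × ℝ) := (P ×ˢ {(1 : ℝ)}) ∪ ((-Q) ×ˢ {(0 : ℝ)})
  have m1 : (z, (1 : ℝ)) ∈ convexHull ℝ s := by
    apply convexHull_mono (Set.subset_union_left (s := P ×ˢ {(1 : ℝ)}) (t := (-Q) ×ˢ {(0 : ℝ)}))
    rw [convexHull_prod]
    exact ⟨hP, by simp⟩
  have m2 : (-z, (0 : ℝ)) ∈ convexHull ℝ s := by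
    apply convexHull_mono (Set.subset_union_right (s := P ×ˢ {(1 : ℝ)}) (t := (-Q) ×ˢ {(0 : ℝ)}))
    rw [convexHull_prod, convexHull_neg]
    exact ⟨by simpa using hQ, by simp⟩
  have m3 : ((0 : EE n), (1 / 2 : ℝ)) ∈ convexHull ℝ s := by
    have := (convex_convexHull ℝ s) m1 m2 (show (0 : ℝ) ≤ 1 / 2 by norm_num)
      (show (0 : ℝ) ≤ 1 / 2 by norm_num) (by norm_num)
    convert this using 1
    ext <;> simp
  obtain ⟨ι, _, Z, w, hZ, hai, hw, hw1, hwz⟩ := eq_pos_convex_span_of_mem_convexHull m3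
  have hcard : (Fintype.card ι : ℝ) ≤ n + 2 := by
    have := hai.card_le_finrank_succ
    have h4 : Module.finrank ℝ (vectorSpan ℝ (Set.range Z)) ≤ n + 1 := by
      refine (Submodule.finrank_le _).trans ?_
      simp
    have h5 : Fintype.card ι ≤ n + 2 := by omega
    exact_mod_cast h5
  -- signs and points
  let σ : ι → ℝ := fun i => 2 * (Z i).2 - 1
  let x : ι → EE n := fun i => σ i • (Z i).1
  have hcase : ∀ i, (σ i = 1 ∧ x i ∈ P) ∨ (σ i = -1 ∧ x i ∈ Q) := by
    intro i
    have : Z i ∈ s := hZ (Set.mem_range_self i)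
    rcases this with h | h
    · left
      have e2 : (Z i).2 = 1 := by simpa using h.2
      have e1 : σ i = 1 := by simp only [σ, e2]; norm_num
      refine ⟨e1, ?_⟩
      simp only [x, e1, one_smul]
      exact h.1
    · right
      have e2 : (Z i).2 = 0 := by simpa using h.2
      have e1 : σ i = -1 := by simp only [σ, e2]; norm_num
      refine ⟨e1, ?_⟩
      simp only [x, e1, neg_smul, one_smul]
      exact h.1
  have hσ2 : ∀ i, σ i * σ i = 1 := by
    intro i
    rcases hcase i with h | h <;> rw [h.1] <;> norm_num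
  have hz1 : ∑ i, w i • (Z i).1 = 0 := by
    have := congrArg Prod.fst hwz
    simpa [Prod.fst_sum] using this
  have hz2 : ∑ i, w i * (Z i).2 = 1 / 2 := by
    have := congrArg Prod.snd hwz
    simpa [Prod.snd_sum] using this
  have s1 : ∑ i, w i * σ i = 0 := by
    have : ∀ i, w i * σ i = 2 * (w i * (Z i).2) - w i := by
      intro i; simp only [σ]; ring
    simp only [this]
    rw [Finset.sum_sub_distrib, ← Finset.mul_sum, hz2, hw1]; norm_num
  have s2 : ∑ i, (w i * σ i) • x i = 0 := by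
    have : ∀ i, (w i * σ i) • x i = w i • (Z i).1 := by
      intro i
      simp only [x, smul_smul]
      rw [mul_assoc, hσ2, mul_one]
    simp only [this]
    exact hz1
  clear_value x
  have ident : ∑ i, ∑ j, (w i * σ i) * (w j * σ j) * dist (x i) (x j) ^ 2 = 0 := by
    have hexp : ∀ i j, (w i * σ i) * (w j * σ j) * dist (x i) (x j) ^ 2 =
        (w i * σ i * ‖x i‖ ^ 2) * (w j * σ j) + (w i * σ i) * (w j * σ j * ‖x j‖ ^ 2)
          - 2 * inner ℝ ((w i * σ i) • x i) ((w j * σ j) • x j) := by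
      intro i j
      rw [dist_eq_norm, @norm_sub_sq_real, inner_smul_left, inner_smul_right]
      simp only [conj_trivial]
      ring
    simp only [hexp]
    simp only [Finset.sum_sub_distrib, Finset.sum_add_distrib, ← Finset.mul_sum, ← Finset.sum_mul,
      ← inner_sum, ← sum_inner]
    rw [s1, s2]
    simp
  have hsq : 1 ≤ (n + 2) * ∑ i, w i ^ 2 := by
    have h4 := sq_sum_le_card_mul_sum_sq (s := (Finset.univ : Finset ι)) (f := w)
    rw [hw1] at h4
    have h5 : 0 ≤ ∑ i, w i ^ 2 := Finset.sum_nonneg fun i _ => sq_nonneg _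
    rw [Finset.card_univ] at h4
    nlinarith
  -- pointwise bound
  have pw : ∀ i j, (w i * σ i) * (w j * σ j) * dist (x i) (x j) ^ 2 ≤
      (w i * w j) * ((e ^ 2 - δ ^ 2) / 2) + (w i * σ i) * (w j * σ j) * ((e ^ 2 + δ ^ 2) / 2)
        - (if i = j then w i ^ 2 * e ^ 2 else 0) := by
    intro i j
    have hwi := hw i
    have hwj := hw j
    have hwij : 0 ≤ w i * w j := by positivity
    by_cases hij : i = j
    · subst hij
      rw [if_pos rfl, dist_self]
      have := hσ2 i
      have e1 : w i * σ i * (w i * σ i) = w i ^ 2 := by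
        rw [show w i * σ i * (w i * σ i) = w i ^ 2 * (σ i * σ i) by ring, this, mul_one]
      rw [e1]
      apply le_of_eq
      ring
    · rw [if_neg hij]
      have hd0 : 0 ≤ dist (x i) (x j) := dist_nonneg
      rcases hcase i with ⟨a1, a2⟩ | ⟨a1, a2⟩ <;> rcases hcase j with ⟨b1, b2⟩ | ⟨b1, b2⟩
      · have hd := h2 _ a2 _ b2
        have : dist (x i) (x j) ^ 2 ≤ e ^ 2 := by nlinarith
        rw [a1, b1]
        nlinarith [mul_le_mul_of_nonneg_left this hwij]
      · have hd := h1 _ a2 _ b2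
        have : δ ^ 2 ≤ dist (x i) (x j) ^ 2 := by nlinarith
        rw [a1, b1]
        nlinarith [mul_le_mul_of_nonneg_left this hwij]
      · have hd := h1 _ b2 _ a2
        rw [dist_comm] at hd
        have : δ ^ 2 ≤ dist (x i) (x j) ^ 2 := by nlinarith
        rw [a1, b1]
        nlinarith [mul_le_mul_of_nonneg_left this hwij]
      · have hd := h3 _ a2 _ b2
        have : dist (x i) (x j) ^ 2 ≤ e ^ 2 := by nlinarith
        rw [a1, b1]
        nlinarith [mul_le_mul_of_nonneg_left this hwij]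
  have tot : (0 : ℝ) ≤ (e ^ 2 - δ ^ 2) / 2 - e ^ 2 * ∑ i, w i ^ 2 := by
    have hle := Finset.sum_le_sum fun i (_ : i ∈ (Finset.univ : Finset ι)) =>
      Finset.sum_le_sum fun j (_ : j ∈ (Finset.univ : Finset ι)) => pw i j
    rw [ident] at hle
    refine hle.trans (le_of_eq ?_)
    simp only [Finset.sum_sub_distrib, Finset.sum_add_distrib, ← Finset.sum_mul, ← Finset.mul_sum,
      Finset.sum_ite_eq, Finset.mem_univ, if_true]
    rw [s1, hw1]
    ring
  have hn : (0 : ℝ) < n + 2 := by positivity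
  have hS : 1 / (n + 2 : ℝ) ≤ ∑ i, w i ^ 2 := by
    rw [div_le_iff₀ hn]; linarith
  have he2 : 0 ≤ e ^ 2 := sq_nonneg e
  have hfin : δ ^ 2 ≤ e ^ 2 * (1 - 2 * (1 / (n + 2 : ℝ))) := by
    nlinarith [mul_le_mul_of_nonneg_left hS he2]
  have : (n : ℝ) / (n + 2) = 1 - 2 * (1 / (n + 2 : ℝ)) := by
    field_simp; ring
  rw [this]
  exact hfin

end Pool.Agent.K4H96.GH
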