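import Mathlib
import Pool.Agent.Helper133.BULib
import Pool.Agent.K4H96.GH.Low
import Pool.Agent.K4H96.GH.Sparse

/-!
# A Borsuk-Ulam theorem for maps that are not continuous, and a lower bound for the
Gromov-Hausdorff distance between balls
-/

set_option autoImplicit false

open Metric Set

namespace Pool.Agent.K4H96.GH

open Pool.Agent.Helper133.BU (K K_compact borsuk_ulam)

theorem K_neg {n : ℕ} {x : Fin (n + 1) → ℝ} (h : x ∈ K n) : -x ∈ K n := by
  simpa [K] using h

/-- Borsuk-Ulam without continuity: the convex hulls of the values near `x` and near `-x` meet. -/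
theorem borsuk_hull (n : ℕ) (T : (Fin (n + 1) → ℝ) → EE n) {η : ℝ} (hη : 0 < η) :
    ∃ x ∈ K n, ∃ z, z ∈ convexHull ℝ (T '' {y | y ∈ K n ∧ dist y x < η}) ∧
      z ∈ convexHull ℝ (T '' {y | y ∈ K n ∧ dist y (-x) < η}) := by
  classical
  obtain ⟨t, htK, htfin, htcov⟩ := (K_compact n).finite_cover_balls hη
  lift t to Finset (Fin (n + 1) → ℝ) using htfin
  let φ : (Fin (n + 1) → ℝ) → (Fin (n + 1) → ℝ) → ℝ := fun y x => max 0 (η - dist y x)
  have hφ0 : ∀ y x, 0 ≤ φ y x := fun y x => le_max_left _ _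
  have hφc : ∀ y, Continuous (φ y) := by
    intro y; simp only [φ]; fun_prop
  have hφpos : ∀ x ∈ K n, 0 < ∑ y ∈ t, φ y x := by
    intro x hx
    have := htcov hx
    simp only [mem_iUnion, mem_ball] at this
    obtain ⟨y, hy, hyx⟩ := this
    apply Finset.sum_pos' (fun i _ => hφ0 i x)
    refine ⟨y, hy, ?_⟩
    simp only [φ]
    rw [dist_comm] at hyx
    exact lt_max_of_lt_right (by linarith)
  have hcm : ∀ x ∈ K n, t.centerMass (fun y => φ y x) T ∈
      convexHull ℝ (T '' {y | y ∈ K n ∧ dist y x < η}) := by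
    intro x hx
    rw [← Finset.centerMass_filter_ne_zero]
    apply Finset.centerMass_mem_convexHull
    · intro i _; exact hφ0 i x
    · rw [Finset.sum_filter_ne_zero]; exact hφpos x hx
    · intro i hi
      rw [Finset.mem_filter] at hi
      refine mem_image_of_mem _ ⟨htK hi.1, ?_⟩
      by_contra hcon
      apply hi.2
      simp only [φ]
      exact max_eq_left (by linarith)
  let f : (Fin (n + 1) → ℝ) → (Fin n → ℝ) := fun x k =>
    ∑ y ∈ t, ∑ y' ∈ t, φ y x * φ y' (-x) * ((T y) k - (T y') k)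
  have hf : Continuous f := by
    refine continuous_pi fun k => ?_
    refine continuous_finsetSum _ fun y _ => continuous_finsetSum _ fun y' _ => ?_
    exact ((hφc y).mul ((hφc y').comp continuous_neg)).mul continuous_const
  have hodd : ∀ x, f (-x) = -f x := by
    intro x
    funext k
    simp only [f, Pi.neg_apply, neg_neg]
    rw [Finset.sum_comm, ← Finset.sum_neg_distrib]
    refine Finset.sum_congr rfl fun y _ => ?_
    rw [← Finset.sum_neg_distrib]
    refine Finset.sum_congr rfl fun y' _ => ?_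
    ring
  obtain ⟨x, hx, hfx⟩ := borsuk_ulam n f hf hodd
  have hA := hφpos x hx
  have hB := hφpos (-x) (K_neg hx)
  refine ⟨x, hx, t.centerMass (fun y => φ y x) T, hcm x hx, ?_⟩
  have heq : t.centerMass (fun y => φ y x) T = t.centerMass (fun y => φ y (-x)) T := by
    ext k
    have h1 : (∑ y ∈ t, φ y x * (T y) k) * (∑ y ∈ t, φ y (-x)) =
        (∑ y ∈ t, φ y x) * (∑ y ∈ t, φ y (-x) * (T y) k) := by
      have h2 := congrFun hfx k
      simp only [f, Pi.zero_apply] at h2
      rw [← sub_eq_zero, ← h2, Finset.sum_mul_sum, Finset.sum_mul_sum, ← Finset.sum_sub_distrib]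
      refine Finset.sum_congr rfl fun y _ => ?_
      rw [← Finset.sum_sub_distrib]
      refine Finset.sum_congr rfl fun y' _ => ?_
      ring
    have e1 : ∀ x', (t.centerMass (fun y => φ y x') T) k =
        (∑ y ∈ t, φ y x')⁻¹ * ∑ y ∈ t, φ y x' * (T y) k := by
      intro x'
      simp [Finset.centerMass]
    rw [e1, e1]
    field_simp
    linarith
  rw [heq]
  exact hcm (-x) (K_neg hx)

/-- The embedding of `ℝ^(n+1)` into Euclidean `m`-space. -/
noncomputable def emb (n m : ℕ) (v : Fin (n + 1) → ℝ) : EE m :=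
  WithLp.toLp 2 (fun j : Fin m => if h : (j : ℕ) < n + 1 then v ⟨j, h⟩ else 0)

theorem emb_cont (n m : ℕ) : Continuous (emb n m) := by
  unfold emb
  refine (PiLp.continuous_toLp 2 _).comp (continuous_pi fun j => ?_)
  by_cases h : (j : ℕ) < n + 1
  · simp only [h, dif_pos]; fun_prop
  · simp only [h, dif_neg, not_false_iff]; fun_prop

theorem emb_neg (n m : ℕ) (v : Fin (n + 1) → ℝ) : emb n m (-v) = -emb n m v := by
  ext j
  by_cases h : (j : ℕ) < n + 1
  · have h' : (j : ℕ) ≤ n := by omega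
    simp [emb, h']
  · have h' : ¬ (j : ℕ) ≤ n := by omega
    simp [emb, h']

theorem emb_ne (n m : ℕ) (h : n < m) {v : Fin (n + 1) → ℝ} (hv : v ∈ K n) : emb n m v ≠ 0 := by
  intro h0
  have hv0 : v = 0 := by
    funext i
    have := congrArg (fun z : EE m => z (⟨i, by omega⟩ : Fin m)) h0
    have hi : (i : ℕ) ≤ n := by omega
    simpa [emb, hi] using this
  rw [hv0] at hv
  simp [K] at hv

/-- The point of the unit sphere. -/
noncomputable def sph (n m : ℕ) (v : Fin (n + 1) → ℝ) : EE m := ‖emb n m v‖⁻¹ • emb n m v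

theorem sph_contOn (n m : ℕ) (h : n < m) : ContinuousOn (sph n m) (K n) := by
  unfold sph
  refine ContinuousOn.smul (f := fun v => ‖emb n m v‖⁻¹) (g := emb n m) ?_ ?_
  · apply ContinuousOn.inv₀
    · exact (emb_cont n m).norm.continuousOn
    · intro v hv
      exact norm_ne_zero_iff.mpr (emb_ne n m h hv)
  · exact (emb_cont n m).continuousOn

theorem sph_neg (n m : ℕ) (v : Fin (n + 1) → ℝ) : sph n m (-v) = -sph n m v := by
  unfold sph
  rw [emb_neg, norm_neg, smul_neg]

theorem norm_sph (n m : ℕ) (h : n < m) {v : Fin (n + 1) → ℝ} (hv : v ∈ K n) :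
    ‖sph n m v‖ = 1 := by
  unfold sph
  rw [norm_smul, norm_inv, norm_norm]
  exact inv_mul_cancel₀ (norm_ne_zero_iff.mpr (emb_ne n m h hv))

theorem norm_sph_le (n m : ℕ) (v : Fin (n + 1) → ℝ) : ‖sph n m v‖ ≤ 1 := by
  unfold sph
  rw [norm_smul, norm_inv, norm_norm]
  exact inv_mul_le_one

noncomputable def sphB (n m : ℕ) (v : Fin (n + 1) → ℝ) : Ball m :=
  ⟨sph n m v, by rw [mem_closedBall_zero_iff]; exact norm_sph_le n m v⟩

/-- The general lower bound. -/
theorem general_lower (n m : ℕ) (h : n < m) :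
    1 / (1 + Real.sqrt (n / (n + 2))) ≤ GromovHausdorff.ghDist (Ball n) (Ball m) := by
  by_contra hlt
  push Not at hlt
  set c := Real.sqrt ((n : ℝ) / (n + 2)) with hc
  have hc0 : 0 ≤ c := Real.sqrt_nonneg _
  have hc2 : c ^ 2 = (n : ℝ) / (n + 2) := Real.sq_sqrt (by positivity)
  have hc1 : c ≤ 1 := by
    rw [hc]; apply Real.sqrt_le_one.mpr
    rw [div_le_one (by positivity)]; linarith
  set G := GromovHausdorff.ghDist (Ball n) (Ball m) with hG
  have hG0 : 0 ≤ G := dist_nonneg
  set r := (G + 1 / (1 + c)) / 2 with hrdef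
  have hr1 : G < r := by rw [hrdef]; linarith
  have hr2 : r < 1 / (1 + c) := by rw [hrdef]; linarith
  have hr3 : r * (1 + c) < 1 := by rwa [lt_div_iff₀ (by positivity)] at hr2
  have hr0 : 0 < r := by linarith
  obtain ⟨T, hT⟩ := exists_map (X := Ball n) (Y := Ball m) hr1
  set ρ := (1 - r * (1 + c)) / 4 with hρ
  have hρ0 : 0 < ρ := by rw [hρ]; linarith
  have huc := (K_compact n).uniformContinuousOn_of_continuous (sph_contOn n m h)
  rw [Metric.uniformContinuousOn_iff] at huc
  obtain ⟨η, hη, hη'⟩ := huc ρ hρ0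
  obtain ⟨x, hx, z, hz1, hz2⟩ := borsuk_hull n (fun v => (T (sphB n m v)).1) hη
  have hdT : ∀ v w, |dist (T (sphB n m v)).1 (T (sphB n m w)).1 - dist (sph n m v) (sph n m w)|
      ≤ 2 * r := fun v w => hT (sphB n m v) (sphB n m w)
  have hnx := K_neg hx
  have hxx : dist (sph n m x) (sph n m (-x)) = 2 := by
    rw [sph_neg, dist_eq_norm, sub_neg_eq_add, ← two_smul ℝ, norm_smul, norm_sph n m h hx]
    norm_num
  have hδ0 : 0 ≤ 2 - 2 * r - 2 * ρ := by
    rw [hρ]; nlinarith [mul_nonneg hr0.le hc0]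
  have hsp := sparse _ _ z hz1 hz2 (δ := 2 - 2 * r - 2 * ρ) (e := 2 * r + 2 * ρ) hδ0 (by positivity)
    (by
      rintro _ ⟨v, ⟨hv, hvx⟩, rfl⟩ _ ⟨w, ⟨hw, hwx⟩, rfl⟩
      have a1 := hη' v hv x hx hvx
      have a2 := hη' w hw (-x) hnx hwx
      have a3 := dist_triangle4 (sph n m x) (sph n m v) (sph n m w) (sph n m (-x))
      rw [hxx, dist_comm (sph n m x) (sph n m v)] at a3
      have a4 := abs_le.mp (hdT v w)
      simp only
      linarith [a4.1])
    (by
      rintro _ ⟨v, ⟨hv, hvx⟩, rfl⟩ _ ⟨w, ⟨hw, hwx⟩, rfl⟩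
      have a1 := hη' v hv x hx hvx
      have a2 := hη' w hw x hx hwx
      have a3 := dist_triangle_right (sph n m v) (sph n m w) (sph n m x)
      have a4 := abs_le.mp (hdT v w)
      simp only
      linarith [a4.2])
    (by
      rintro _ ⟨v, ⟨hv, hvx⟩, rfl⟩ _ ⟨w, ⟨hw, hwx⟩, rfl⟩
      have a1 := hη' v hv (-x) hnx hvx
      have a2 := hη' w hw (-x) hnx hwx
      have a3 := dist_triangle_right (sph n m v) (sph n m w) (sph n m (-x))
      have a4 := abs_le.mp (hdT v w)
      simp only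
      linarith [a4.2])
  rw [← hc2, ← mul_pow] at hsp
  have h5 : 2 - 2 * r - 2 * ρ ≤ (2 * r + 2 * ρ) * c := by
    refine le_trans (le_abs_self _) ?_
    rw [← abs_of_nonneg (show 0 ≤ (2 * r + 2 * ρ) * c by positivity)]
    exact sq_le_sq.mp hsp
  have h6 : ρ * c ≤ ρ := by nlinarith
  have h7 : 4 * ρ = 1 - r * (1 + c) := by rw [hρ]; ring
  nlinarith

end Pool.Agent.K4H96.GH
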