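import Mathlib
import Pool.Agent.K4H96.GH.BU

/-!
# A Lusternik-Schnirelmann theorem for arbitrary partitions, and balls of large dimension
-/

set_option autoImplicit false

open Metric Set

namespace Pool.Agent.K4H96.GH

open Pool.Agent.Helper133.BU (K K_compact borsuk_ulam)

/-- Every map from the `M`-sphere to a set of `M + 1` elements takes equal values at two points
that are nearly antipodal. -/
theorem ls (M : ℕ) (cls : (Fin (M + 1) → ℝ) → Fin (M + 1)) {η : ℝ} (hη : 0 < η) :
    ∃ v ∈ K M, ∃ w ∈ K M, cls v = cls w ∧ dist v (-w) < η := by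
  classical
  let A : Fin (M + 1) → Set (Fin (M + 1) → ℝ) := fun i => {v | v ∈ K M ∧ cls v = i}
  let f : (Fin (M + 1) → ℝ) → (Fin M → ℝ) := fun x i =>
    infDist x (A i.castSucc) - infDist (-x) (A i.castSucc)
  have hf : Continuous f := by
    refine continuous_pi fun i => ?_
    exact (continuous_infDist_pt _).sub ((continuous_infDist_pt _).comp continuous_neg)
  have hodd : ∀ x, f (-x) = -f x := by
    intro x; funext i; simp only [f, Pi.neg_apply, neg_neg]; ring
  obtain ⟨x, hx, hfx⟩ := borsuk_ulam M f hf hodd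
  have hnx := K_neg hx
  have hzero : ∀ i : Fin M, infDist x (A i.castSucc) = infDist (-x) (A i.castSucc) := by
    intro i
    have := congrFun hfx i
    simp only [f, Pi.zero_apply] at this
    linarith
  -- a point in the class of `x` near `-x`
  have step : ∀ y ∈ K M, ∀ i : Fin M, cls y = i.castSucc →
      infDist y (A i.castSucc) = infDist (-y) (A i.castSucc) →
      ∃ v ∈ K M, ∃ w ∈ K M, cls v = cls w ∧ dist v (-w) < η := by
    intro y hy i hi heq
    have hyA : y ∈ A i.castSucc := ⟨hy, hi⟩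
    rw [infDist_zero_of_mem hyA] at heq
    have hlt : infDist (-y) (A i.castSucc) < η := by rw [← heq]; exact hη
    obtain ⟨w, hw, hdw⟩ := (infDist_lt_iff ⟨y, hyA⟩).mp hlt
    refine ⟨y, hy, w, hw.1, by rw [hi, hw.2], ?_⟩
    rw [← dist_neg_neg, neg_neg]
    exact hdw
  rcases Fin.eq_castSucc_or_eq_last (cls x) with ⟨i, hi⟩ | hi
  · exact step x hx i hi (hzero i)
  · rcases Fin.eq_castSucc_or_eq_last (cls (-x)) with ⟨j, hj⟩ | hj
    · exact step (-x) hnx j hj (by rw [neg_neg]; exact (hzero j).symm)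
    · exact ⟨x, hx, -x, hnx, by rw [hi, hj], by simpa using hη⟩

/-- The cell of a number of `[-1, 1]`. -/
noncomputable def cell (k : ℕ) (t : ℝ) : ℕ := min ⌊(t + 1) * k / 2⌋₊ (k - 1)

theorem cell_lt {k : ℕ} (hk : 0 < k) (t : ℝ) : cell k t < k := by
  unfold cell; omega

theorem cell_close {k : ℕ} (hk : 0 < k) {s t : ℝ} (hs : -1 ≤ s) (hs' : s ≤ 1) (ht : -1 ≤ t)
    (ht' : t ≤ 1) (h : cell k s = cell k t) : |s - t| ≤ 2 / k := by
  have hk' : (0 : ℝ) < k := by exact_mod_cast hk
  -- the cell `c` is the interval `[2c/k - 1, 2(c+1)/k - 1]`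
  have key : ∀ u : ℝ, -1 ≤ u → u ≤ 1 →
      (cell k u : ℝ) ≤ (u + 1) * k / 2 ∧ (u + 1) * k / 2 ≤ (cell k u : ℝ) + 1 := by
    intro u hu hu'
    have h0 : 0 ≤ (u + 1) * k / 2 := by
      have : 0 ≤ u + 1 := by linarith
      positivity
    constructor
    · have h1 : ((cell k u : ℕ) : ℝ) ≤ (⌊(u + 1) * k / 2⌋₊ : ℝ) := by
        exact_mod_cast min_le_left _ _
      exact h1.trans (Nat.floor_le h0)
    · unfold cell
      rcases le_total ⌊(u + 1) * k / 2⌋₊ (k - 1) with h1 | h1
      · rw [min_eq_left h1]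
        exact (Nat.lt_floor_add_one _).le
      · rw [min_eq_right h1]
        have h2 : ((k - 1 : ℕ) : ℝ) + 1 = k := by
          rw [Nat.cast_sub hk]; push_cast; ring
        rw [h2]
        nlinarith
  obtain ⟨a1, a2⟩ := key s hs hs'
  obtain ⟨b1, b2⟩ := key t ht ht'
  rw [h] at a1 a2
  rw [abs_le, le_div_iff₀ hk', neg_le, ← neg_sub t s, neg_neg, le_div_iff₀ hk']
  constructor <;> nlinarith

theorem coord_bound {n : ℕ} (u : Ball n) (i : Fin n) : -1 ≤ u.1 i ∧ u.1 i ≤ 1 := by
  have h1 : ‖u.1 i‖ ≤ ‖u.1‖ := PiLp.norm_apply_le u.1 i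
  have h2 : ‖u.1‖ ≤ 1 := by
    have := u.2
    rwa [mem_closedBall_zero_iff] at this
  rw [Real.norm_eq_abs] at h1
  exact abs_le.mp (h1.trans h2)

/-- A lower bound that tends to `1` for fixed `n`. -/
theorem grid_lower (n k m : ℕ) (hk : 0 < k) (hm : k ^ n ≤ m) :
    1 - Real.sqrt n / k ≤ GromovHausdorff.ghDist (Ball n) (Ball m) := by
  classical
  have hk' : (0 : ℝ) < k := by exact_mod_cast hk
  obtain ⟨M, rfl⟩ : ∃ M, m = M + 1 := ⟨m - 1, by have := pow_pos hk n; omega⟩
  by_contra hlt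
  push Not at hlt
  set G := GromovHausdorff.ghDist (Ball n) (Ball (M + 1)) with hG
  set b := 1 - Real.sqrt n / k with hb
  set r := (G + b) / 2 with hrdef
  have hr1 : G < r := by rw [hrdef]; linarith
  have hr2 : r < b := by rw [hrdef]; linarith
  obtain ⟨T, hT⟩ := exists_map (X := Ball n) (Y := Ball (M + 1)) hr1
  have hρ0 : 0 < b - r := by linarith
  have huc := (K_compact M).uniformContinuousOn_of_continuous
    (sph_contOn M (M + 1) (Nat.lt_succ_self M))
  rw [Metric.uniformContinuousOn_iff] at huc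
  obtain ⟨η, hη, hη'⟩ := huc (b - r) hρ0
  have hcard : Fintype.card (Fin n → Fin k) ≤ Fintype.card (Fin (M + 1)) := by
    simpa using hm
  obtain ⟨e⟩ := Function.Embedding.nonempty_of_card_le hcard
  let cl : Ball n → (Fin n → Fin k) := fun u i => ⟨cell k (u.1 i), cell_lt hk _⟩
  obtain ⟨v, hv, w, hw, hcls, hvw⟩ := ls M (fun v => e (cl (T (sphB M (M + 1) v)))) hη
  have hcl := e.injective hcls
  set p := T (sphB M (M + 1) v) with hp
  set q := T (sphB M (M + 1) w) with hq
  have hclose : dist p q ≤ 2 * (Real.sqrt n / k) := by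
    rw [Subtype.dist_eq, EuclideanSpace.dist_eq]
    have h1 : ∑ i, dist (p.1 i) (q.1 i) ^ 2 ≤ n * (2 / k) ^ 2 := by
      calc ∑ i, dist (p.1 i) (q.1 i) ^ 2 ≤ ∑ _i : Fin n, (2 / (k : ℝ)) ^ 2 := by
            apply Finset.sum_le_sum
            intro i _
            have h2 := congrArg Fin.val (congrFun hcl i)
            have h3 := cell_close hk (coord_bound p i).1 (coord_bound p i).2
              (coord_bound q i).1 (coord_bound q i).2 h2
            rw [Real.dist_eq]
            exact pow_le_pow_left₀ (abs_nonneg _) h3 2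
        _ = n * (2 / k) ^ 2 := by simp
    refine (Real.sqrt_le_sqrt h1).trans (le_of_eq ?_)
    rw [Real.sqrt_mul (by positivity), Real.sqrt_sq (by positivity)]
    ring
  have hd := hT (sphB M (M + 1) v) (sphB M (M + 1) w)
  have h1 := hη' v hv (-w) (K_neg hw) hvw
  have h2 : dist (sph M (M + 1) (-w)) (sph M (M + 1) w) = 2 := by
    rw [sph_neg, dist_comm, dist_eq_norm, sub_neg_eq_add, ← two_smul ℝ, norm_smul,
      norm_sph M (M + 1) (Nat.lt_succ_self M) hw]
    norm_num
  have h3 := dist_triangle_left (sph M (M + 1) (-w)) (sph M (M + 1) w) (sph M (M + 1) v)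
  have h4 : dist (sphB M (M + 1) v) (sphB M (M + 1) w) =
      dist (sph M (M + 1) v) (sph M (M + 1) w) := rfl
  rw [h4] at hd
  have h5 := (abs_le.mp hd).1
  rw [h2] at h3
  have h6 : b = 1 - Real.sqrt n / k := hb
  linarith

/-- An injection of `Ball n` into `Ball m` for `n ≤ m`. -/
noncomputable def inj (n m : ℕ) (u : Ball n) : Ball m :=
  ⟨WithLp.toLp 2 (fun j : Fin m => if h : (j : ℕ) < n then u.1 ⟨j, h⟩ / m else 0), by
    rw [mem_closedBall_zero_iff]
    have hsq : ‖(WithLp.toLp 2 (fun j : Fin m => if h : (j : ℕ) < n then u.1 ⟨j, h⟩ / m else 0) :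
        EE m)‖ ^ 2 ≤ 1 := by
      rw [EuclideanSpace.norm_sq_eq]
      have hm1 : ∀ j : Fin m, ‖(WithLp.toLp 2 (fun j : Fin m => if h : (j : ℕ) < n then
          u.1 ⟨j, h⟩ / m else 0) : EE m) j‖ ^ 2 ≤ 1 / m := by
        intro j
        have hmpos : (1 : ℝ) ≤ m := by
          have : 1 ≤ m := by have := j.2; omega
          exact_mod_cast this
        show ‖(if h : (j : ℕ) < n then u.1 ⟨j, h⟩ / m else 0 : ℝ)‖ ^ 2 ≤ 1 / m
        by_cases h : (j : ℕ) < n
        · rw [dif_pos h, Real.norm_eq_abs, sq_abs, div_pow, div_le_div_iff₀ (by positivity)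
            (by positivity)]
          obtain ⟨a, b⟩ := coord_bound u ⟨j, h⟩
          have h1 : (u.1 ⟨j, h⟩) ^ 2 ≤ 1 := by nlinarith
          nlinarith
        · rw [dif_neg h]; simp
      calc _ ≤ ∑ _j : Fin m, (1 / (m : ℝ)) := Finset.sum_le_sum fun j _ => hm1 j
        _ ≤ 1 := by
          rw [Finset.sum_const, Finset.card_univ, Fintype.card_fin, nsmul_eq_mul]
          rcases Nat.eq_zero_or_pos m with h | h
          · subst h; simp
          · have : (m : ℝ) ≠ 0 := by positivity
            field_simp; exact le_rfl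
    have h0 := norm_nonneg (WithLp.toLp 2 (fun j : Fin m => if h : (j : ℕ) < n then
      u.1 ⟨j, h⟩ / m else 0) : EE m)
    nlinarith⟩

theorem inj_injective (n m : ℕ) (h : n ≤ m) : Function.Injective (inj n m) := by
  intro u v huv
  apply Subtype.ext
  ext i
  have h1 : (inj n m u).1 (⟨i, by omega⟩ : Fin m) = (inj n m v).1 (⟨i, by omega⟩ : Fin m) := by
    rw [huv]
  have hm : (m : ℝ) ≠ 0 := by
    have : 0 < m := by have := i.2; omega
    positivity
  simp only [inj, i.2, dif_pos] at h1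
  field_simp at h1
  exact h1

theorem dist_ball_le {n : ℕ} (x y : Ball n) : dist x y ≤ 2 := by
  have h1 := mem_closedBall_zero_iff.mp x.2
  have h2 := mem_closedBall_zero_iff.mp y.2
  rw [Subtype.dist_eq, dist_eq_norm]
  linarith [norm_sub_le x.1 y.1]

theorem upper_one (n m : ℕ) (h : n ≤ m) : GromovHausdorff.ghDist (Ball n) (Ball m) ≤ 1 := by
  have hc : GromovHausdorff.ghDist (Ball n) (Ball m) = GromovHausdorff.ghDist (Ball m) (Ball n) :=
    dist_comm _ _
  rw [hc]
  have hs := Function.invFun_surjective (inj_injective n m h)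
  have := GromovHausdorff.ghDist_le_of_approx_subsets (X := Ball m) (Y := Ball n)
    (s := Set.univ) (fun v => Function.invFun (inj n m) v.1) (ε₁ := 0) (ε₂ := 2) (ε₃ := 0)
    (fun x => ⟨x, mem_univ _, by simp⟩)
    (by
      intro t
      obtain ⟨v, hv⟩ := hs t
      exact ⟨⟨v, mem_univ _⟩, by rw [hv, dist_self]⟩)
    (by
      intro v w
      have h1 := dist_ball_le v.1 w.1
      have h2 := dist_ball_le (Function.invFun (inj n m) v.1) (Function.invFun (inj n m) w.1)
      have h3 : (0 : ℝ) ≤ dist v w := dist_nonneg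
      have h4 : (0 : ℝ) ≤ dist (Function.invFun (inj n m) v.1) (Function.invFun (inj n m) w.1) :=
        dist_nonneg
      have h5 : dist v w = dist v.1 w.1 := rfl
      rw [abs_le]; constructor <;> linarith)
  linarith

theorem tendsto_one (n : ℕ) :
    Filter.Tendsto (fun m : ℕ => GromovHausdorff.ghDist (Ball n) (Ball m)) Filter.atTop
      (nhds 1) := by
  rw [Metric.tendsto_atTop]
  intro ε hε
  obtain ⟨k, hk⟩ := exists_nat_gt (Real.sqrt n / ε)
  have hk0 : (0 : ℝ) < (k : ℝ) := lt_of_le_of_lt (by positivity) hk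
  have hk1 : 0 < k := by exact_mod_cast hk0
  refine ⟨max n (k ^ n), fun m hm => ?_⟩
  have h1 := grid_lower n k m hk1 ((le_max_right _ _).trans hm)
  have h2 := upper_one n m ((le_max_left _ _).trans hm)
  have h3 : Real.sqrt n / k < ε := by
    rw [div_lt_iff₀ hε] at hk
    rw [div_lt_iff₀ hk0]; linarith
  rw [Real.dist_eq, abs_lt]
  constructor <;> linarith

end Pool.Agent.K4H96.GH
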