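import Mathlib
import Pool.Agent.K4H96.GH.Low

/-!
# A map of distortion `4/3` from the disc onto `[-1, 1]`
-/

set_option autoImplicit false

open Metric Set

namespace Pool.Agent.K4H96.GH

open Classical in
/-- The map of the disc onto the interval. -/
noncomputable def g (x y : ℝ) : ℝ :=
  if x ^ 2 + y ^ 2 ≤ 1 / 9 then x
  else if 0 < y ∨ (y = 0 ∧ 0 < x) then (x + 2) / 3 else (x - 2) / 3

/-- The three kinds of points. -/
theorem g_cases (x y : ℝ) (_h : x ^ 2 + y ^ 2 ≤ 1) :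
    (x ^ 2 + y ^ 2 ≤ 1 / 9 ∧ g x y = x) ∨ (0 ≤ y ∧ g x y = (x + 2) / 3) ∨
      (y ≤ 0 ∧ g x y = (x - 2) / 3) := by
  classical
  unfold g
  by_cases h1 : x ^ 2 + y ^ 2 ≤ 1 / 9
  · left; exact ⟨h1, by rw [if_pos h1]⟩
  · rw [if_neg h1]
    by_cases h2 : 0 < y ∨ (y = 0 ∧ 0 < x)
    · right; left
      rw [if_pos h2]
      refine ⟨?_, rfl⟩
      rcases h2 with h2 | h2
      · exact h2.le
      · exact h2.1.ge
    · right; right
      rw [if_neg h2]
      refine ⟨?_, rfl⟩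
      push Not at h2
      exact h2.1

theorem abs_le_of_disc {x y : ℝ} (h : x ^ 2 + y ^ 2 ≤ 1) : -1 ≤ x ∧ x ≤ 1 := by
  constructor <;> nlinarith [sq_nonneg y]

theorem abs_g_le {x y : ℝ} (h : x ^ 2 + y ^ 2 ≤ 1) : |g x y| ≤ 1 := by
  obtain ⟨a, b⟩ := abs_le_of_disc h
  rcases g_cases x y h with h1 | h1 | h1
  · rw [h1.2, abs_le]; exact ⟨a, b⟩
  · rw [h1.2, abs_le]; constructor <;> linarith
  · rw [h1.2, abs_le]; constructor <;> linarith

/-- The key inequality for two points of the upper half disc. -/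
theorem key_half {x y u v D : ℝ} (h : x ^ 2 + y ^ 2 ≤ 1) (h' : u ^ 2 + v ^ 2 ≤ 1)
    (hy : 0 ≤ y) (hv : 0 ≤ v) (hD : D ^ 2 = (x - u) ^ 2 + (y - v) ^ 2) :
    3 * D ≤ 4 + |x - u| := by
  wlog hyv : v ≤ y generalizing x y u v with H
  · have := H h' h hv hy (by rw [hD]; ring) (le_of_not_ge hyv)
    rwa [abs_sub_comm] at this
  obtain ⟨a, b⟩ := abs_le_of_disc h
  obtain ⟨a', b'⟩ := abs_le_of_disc h'
  set d := |x - u| with hd
  have hd0 : 0 ≤ d := abs_nonneg _
  have hd2 : d ^ 2 = (x - u) ^ 2 := sq_abs _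
  have hdx : d ≤ 1 + |x| := by
    rw [hd, abs_le]
    constructor <;> linarith [le_abs_self x, neg_abs_le x]
  have hx0 : 0 ≤ |x| := abs_nonneg _
  have hx1 : |x| ≤ 1 := abs_le.mpr ⟨a, b⟩
  have hx2 : |x| ^ 2 = x ^ 2 := sq_abs _
  have hyy : (y - v) ^ 2 ≤ 1 - |x| ^ 2 := by
    rw [hx2]; nlinarith
  have hm : 0 ≤ d * (1 + |x| - d) := mul_nonneg hd0 (by linarith)
  have hn : 0 ≤ |x| * (1 + |x| - d) := mul_nonneg hx0 (by linarith)
  have hq : 0 ≤ (1 - |x|) * (7 - |x|) := mul_nonneg (by linarith) (by linarith)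
  have h9 : (3 * D) ^ 2 ≤ (4 + d) ^ 2 := by
    nlinarith
  exact le_of_sq_le_sq' h9 (by linarith)
where
  le_of_sq_le_sq' {a b : ℝ} (h : a ^ 2 ≤ b ^ 2) (hb : 0 ≤ b) : a ≤ b := by
    exact le_trans (le_abs_self a) (by rw [← abs_of_nonneg hb]; exact sq_le_sq.mp h)

theorem dist_two {x y u v D : ℝ} (h : x ^ 2 + y ^ 2 ≤ 1) (h' : u ^ 2 + v ^ 2 ≤ 1)
    (hD : D ^ 2 = (x - u) ^ 2 + (y - v) ^ 2) : D ≤ 2 := by
  nlinarith [sq_nonneg (x + u), sq_nonneg (y + v)]

theorem abs_sub_le_D {x y u v D : ℝ} (hD0 : 0 ≤ D)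
    (hD : D ^ 2 = (x - u) ^ 2 + (y - v) ^ 2) : |x - u| ≤ D := by
  apply abs_le_of_sq_le_sq _ hD0
  nlinarith [sq_nonneg (y - v)]

/-- Distortion at most `4/3`. -/
theorem distort {x y u v D : ℝ} (h : x ^ 2 + y ^ 2 ≤ 1) (h' : u ^ 2 + v ^ 2 ≤ 1)
    (hD0 : 0 ≤ D) (hD : D ^ 2 = (x - u) ^ 2 + (y - v) ^ 2) :
    |D - (|g x y - g u v|)| ≤ 4 / 3 := by
  have hD2 := dist_two h h' hD
  have hDx := abs_sub_le_D hD0 hD
  obtain ⟨a, b⟩ := abs_le_of_disc h
  obtain ⟨a', b'⟩ := abs_le_of_disc h'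
  have hg1 := abs_le.mp (abs_g_le h)
  have hg2 := abs_le.mp (abs_g_le h')
  have small : ∀ {x y u v D : ℝ}, x ^ 2 + y ^ 2 ≤ 1 / 9 → u ^ 2 + v ^ 2 ≤ 1 → 0 ≤ D →
      D ^ 2 = (x - u) ^ 2 + (y - v) ^ 2 → D ≤ 4 / 3 := by
    intro x y u v D h1 h2 h3 h4
    have hc : (x * u + y * v) ^ 2 ≤ 1 / 9 := by
      nlinarith [sq_nonneg (x * v - y * u), sq_nonneg x, sq_nonneg y, sq_nonneg u, sq_nonneg v,
        mul_nonneg (add_nonneg (sq_nonneg x) (sq_nonneg y)) (sub_nonneg.mpr h2)]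
    have hc2 : -(1 / 3) ≤ x * u + y * v := by
      nlinarith
    nlinarith
  have smallx : ∀ {x y : ℝ}, x ^ 2 + y ^ 2 ≤ 1 / 9 → -(1 / 3) ≤ x ∧ x ≤ 1 / 3 := by
    intro x y h
    constructor <;> nlinarith [sq_nonneg y]
  rcases g_cases x y h with ⟨h1, e1⟩ | ⟨h1, e1⟩ | ⟨h1, e1⟩ <;>
  rcases g_cases u v h' with ⟨h2, e2⟩ | ⟨h2, e2⟩ | ⟨h2, e2⟩
  · have s1 := smallx h1
    have s2 := small h1 h' hD0 hD
    rw [e1] at hg1 ⊢
    have : |x - g u v| ≤ 4 / 3 := by rw [abs_le]; constructor <;> linarith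
    have h0 := abs_nonneg (x - g u v)
    rw [abs_le]; constructor <;> linarith
  · have s1 := smallx h1
    have s2 := small h1 h' hD0 hD
    rw [e1] at hg1 ⊢
    have : |x - g u v| ≤ 4 / 3 := by rw [abs_le]; constructor <;> linarith
    have h0 := abs_nonneg (x - g u v)
    rw [abs_le]; constructor <;> linarith
  · have s1 := smallx h1
    have s2 := small h1 h' hD0 hD
    rw [e1] at hg1 ⊢
    have : |x - g u v| ≤ 4 / 3 := by rw [abs_le]; constructor <;> linarith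
    have h0 := abs_nonneg (x - g u v)
    rw [abs_le]; constructor <;> linarith
  · have s1 := smallx h2
    have s2 := small h2 h hD0 (by rw [hD]; ring)
    rw [e2] at hg2 ⊢
    have : |g x y - u| ≤ 4 / 3 := by rw [abs_le]; constructor <;> linarith
    have h0 := abs_nonneg (g x y - u)
    rw [abs_le]; constructor <;> linarith
  · have hk := key_half h h' h1 h2 hD
    rw [e1, e2, show (x + 2) / 3 - (u + 2) / 3 = (x - u) / 3 by ring, abs_div,
      abs_of_pos (show (0 : ℝ) < 3 by norm_num)]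
    have h0 := abs_nonneg (x - u)
    rw [abs_le]; constructor <;> linarith
  · rw [e1, e2, show (x + 2) / 3 - (u - 2) / 3 = (x - u + 4) / 3 by ring]
    have hb := abs_le.mp hDx
    rw [abs_of_nonneg (show 0 ≤ (x - u + 4) / 3 by linarith), abs_le]
    constructor <;> linarith
  · have s1 := smallx h2
    have s2 := small h2 h hD0 (by rw [hD]; ring)
    rw [e2] at hg2 ⊢
    have : |g x y - u| ≤ 4 / 3 := by rw [abs_le]; constructor <;> linarith
    have h0 := abs_nonneg (g x y - u)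
    rw [abs_le]; constructor <;> linarith
  · rw [e1, e2, show (x - 2) / 3 - (u + 2) / 3 = -((u - x + 4) / 3) by ring, abs_neg]
    have hb := abs_le.mp hDx
    rw [abs_of_nonneg (show 0 ≤ (u - x + 4) / 3 by linarith), abs_le]
    constructor <;> linarith
  · have hk := key_half (x := x) (y := -y) (u := u) (v := -v) (D := D) (by simpa using h)
      (by simpa using h') (by linarith) (by linarith) (by rw [hD]; ring)
    rw [e1, e2, show (x - 2) / 3 - (u - 2) / 3 = (x - u) / 3 by ring, abs_div,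
      abs_of_pos (show (0 : ℝ) < 3 by norm_num)]
    have h0 := abs_nonneg (x - u)
    rw [abs_le]; constructor <;> linarith

/-- Every value in `[-1, 1]` is taken. -/
theorem g_surj {t : ℝ} (h1 : -1 ≤ t) (h2 : t ≤ 1) :
    ∃ x y : ℝ, x ^ 2 + y ^ 2 ≤ 1 ∧ g x y = t := by
  classical
  rcases le_or_gt (|t|) (1 / 3) with h | h
  · refine ⟨t, 0, by nlinarith, ?_⟩
    unfold g
    rw [abs_le] at h
    rw [if_pos (by nlinarith [h.1, h.2])]
  · rw [lt_abs] at h
    rcases h with h | h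
    · -- t > 1/3
      set x := 3 * t - 2 with hx
      have hx1 : -1 < x := by linarith
      have hx2 : x ≤ 1 := by linarith
      have hs : 0 ≤ 1 - x ^ 2 := by nlinarith
      have hsq : Real.sqrt (1 - x ^ 2) ^ 2 = 1 - x ^ 2 := Real.sq_sqrt hs
      refine ⟨x, Real.sqrt (1 - x ^ 2), by rw [hsq]; linarith, ?_⟩
      unfold g
      rw [if_neg (by rw [hsq]; norm_num), if_pos]
      · rw [hx]; ring
      · rcases hx2.lt_or_eq with h3 | h3
        · left; apply Real.sqrt_pos.mpr; nlinarith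
        · right; rw [h3]; norm_num
    · set x := 3 * t + 2 with hx
      have hx1 : -1 ≤ x := by linarith
      have hx2 : x < 1 := by linarith
      have hs : 0 ≤ 1 - x ^ 2 := by nlinarith
      have hsq : (-Real.sqrt (1 - x ^ 2)) ^ 2 = 1 - x ^ 2 := by
        rw [neg_sq]; exact Real.sq_sqrt hs
      refine ⟨x, -Real.sqrt (1 - x ^ 2), by rw [hsq]; linarith, ?_⟩
      unfold g
      rw [if_neg (by rw [hsq]; norm_num), if_neg]
      · rw [hx]; ring
      · push Not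
        refine ⟨by linarith [Real.sqrt_nonneg (1 - x ^ 2)], ?_⟩
        intro h3
        have h4 : 1 - x ^ 2 = 0 := by rw [← hsq, h3]; norm_num
        nlinarith

theorem mem_ball2 (v : Ball 2) : (v.1 0) ^ 2 + (v.1 1) ^ 2 ≤ 1 := by
  have h := v.2
  rw [mem_closedBall_zero_iff] at h
  have h2 : ‖v.1‖ ^ 2 = (v.1 0) ^ 2 + (v.1 1) ^ 2 := by
    rw [EuclideanSpace.norm_sq_eq]; simp [Fin.sum_univ_two]
  rw [← h2]
  nlinarith [norm_nonneg v.1]

/-- The map on the ball. -/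
noncomputable def Gm (v : Ball 2) : Ball 1 :=
  ⟨EuclideanSpace.single 0 (g (v.1 0) (v.1 1)), by
    rw [mem_closedBall_zero_iff]
    simpa using abs_g_le (mem_ball2 v)⟩

theorem Gm_apply (v : Ball 2) : (Gm v).1 0 = g (v.1 0) (v.1 1) := by
  simp [Gm]

theorem upper : GromovHausdorff.ghDist (Ball 1) (Ball 2) ≤ 2 / 3 := by
  have hc : GromovHausdorff.ghDist (Ball 1) (Ball 2) = GromovHausdorff.ghDist (Ball 2) (Ball 1) :=
    dist_comm _ _
  rw [hc]
  have := GromovHausdorff.ghDist_le_of_approx_subsets (X := Ball 2) (Y := Ball 1)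
    (s := Set.univ) (fun v => Gm v.1) (ε₁ := 0) (ε₂ := 4 / 3) (ε₃ := 0)
    (fun x => ⟨x, mem_univ _, by simp⟩)
    (by
      intro t
      have ht : |t.1 0| ≤ 1 := by
        have h := t.2
        rw [mem_closedBall_zero_iff] at h
        have h2 : ‖t.1‖ ^ 2 = (t.1 0) ^ 2 := by
          rw [EuclideanSpace.norm_sq_eq]; simp
        have h3 : (t.1 0) ^ 2 ≤ 1 ^ 2 := by
          rw [← h2]; nlinarith [norm_nonneg t.1]
        exact abs_le_of_sq_le_sq h3 (by norm_num)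
      rw [abs_le] at ht
      obtain ⟨x, y, hxy, hg⟩ := g_surj ht.1 ht.2
      refine ⟨⟨⟨!₂[x, y], ?_⟩, mem_univ _⟩, ?_⟩
      · rw [mem_closedBall_zero_iff]
        have h2 : ‖(!₂[x, y] : EuclideanSpace ℝ (Fin 2))‖ ^ 2 = x ^ 2 + y ^ 2 := by
          rw [EuclideanSpace.norm_sq_eq]; simp [Fin.sum_univ_two]
        have h3 := norm_nonneg (!₂[x, y] : EuclideanSpace ℝ (Fin 2))
        nlinarith
      · rw [dist_ball1, Gm_apply]
        simp [hg])
    (by
      intro v w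
      have hD : dist v w ^ 2 = (v.1.1 0 - w.1.1 0) ^ 2 + (v.1.1 1 - w.1.1 1) ^ 2 := by
        rw [Subtype.dist_eq, Subtype.dist_eq, EuclideanSpace.dist_eq, Real.sq_sqrt]
        · simp [Fin.sum_univ_two, Real.dist_eq, sq_abs]
        · positivity
      have := distort (mem_ball2 v.1) (mem_ball2 w.1) dist_nonneg hD
      rw [dist_ball1, Gm_apply, Gm_apply]
      exact this)
  linarith

end Pool.Agent.K4H96.GH
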