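import Mathlib
import Pool.Agent.K4H96.GH.LS

/-!
# An upper bound for the Gromov-Hausdorff distance of balls
-/

set_option autoImplicit false

open Metric Set

namespace Pool.Agent.K4H96.GH

/-- Two points of the ball of the same class are not nearly antipodal. -/
theorem same_class {m : ℕ} (hm2 : 2 ≤ m) (v w : Ball m) (i : Fin m)
    (hv : ∀ j, |v.1 j| ≤ |v.1 i|) (hw : ∀ j, |w.1 j| ≤ |w.1 i|) (hs : 0 ≤ v.1 i * w.1 i) :
    dist v w ≤ 2 - 1 / m := by
  have hm : 0 < m := by omega
  have hm1 : (1 : ℝ) ≤ m := by exact_mod_cast hm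
  have nv : ∑ j, (v.1 j) ^ 2 ≤ 1 := by
    have h1 := mem_closedBall_zero_iff.mp v.2
    have h2 : ‖v.1‖ ^ 2 = ∑ j, (v.1 j) ^ 2 := by rw [EuclideanSpace.norm_sq_eq]; simp
    rw [← h2]; nlinarith [norm_nonneg v.1]
  have nw : ∑ j, (w.1 j) ^ 2 ≤ 1 := by
    have h1 := mem_closedBall_zero_iff.mp w.2
    have h2 : ‖w.1‖ ^ 2 = ∑ j, (w.1 j) ^ 2 := by rw [EuclideanSpace.norm_sq_eq]; simp
    rw [← h2]; nlinarith [norm_nonneg w.1]
  set P := ∑ j, |v.1 j * w.1 j| with hP
  have hPi : P ≤ m * |v.1 i * w.1 i| := by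
    rw [hP]
    calc ∑ j, |v.1 j * w.1 j| ≤ ∑ _j : Fin m, |v.1 i * w.1 i| := by
          apply Finset.sum_le_sum
          intro j _
          rw [abs_mul, abs_mul]
          exact mul_le_mul (hv j) (hw j) (abs_nonneg _) (abs_nonneg _)
      _ = m * |v.1 i * w.1 i| := by simp
  have hP1 : P ≤ 1 := by
    have : P ≤ ∑ j, ((v.1 j) ^ 2 + (w.1 j) ^ 2) / 2 := by
      apply Finset.sum_le_sum
      intro j _
      rw [abs_mul]
      nlinarith [sq_nonneg (|v.1 j| - |w.1 j|), sq_abs (v.1 j), sq_abs (w.1 j)]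
    rw [← Finset.sum_div, Finset.sum_add_distrib] at this
    linarith
  have hP0 : 0 ≤ P := Finset.sum_nonneg fun j _ => abs_nonneg _
  have hdot : 2 * |v.1 i * w.1 i| - P ≤ ∑ j, v.1 j * w.1 j := by
    have h1 : ∑ j, (v.1 j * w.1 j + |v.1 j * w.1 j|) ≥ v.1 i * w.1 i + |v.1 i * w.1 i| :=
      Finset.single_le_sum (f := fun j => v.1 j * w.1 j + |v.1 j * w.1 j|)
        (fun j _ => by linarith [neg_abs_le (v.1 j * w.1 j)]) (Finset.mem_univ i)
    rw [Finset.sum_add_distrib] at h1
    rw [abs_of_nonneg hs] at h1 ⊢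
    linarith
  have hdot2 : -(1 - 2 / m) ≤ ∑ j, v.1 j * w.1 j := by
    have h1 : P / m ≤ |v.1 i * w.1 i| := by
      rw [div_le_iff₀ (by linarith)]; linarith
    have h2 : P * (1 / m) = P / m := by ring
    have h3 : (2 : ℝ) / m = 2 * (1 / m) := by ring
    have h4 : 0 < 1 / (m : ℝ) := by positivity
    have h5 : 1 / (m : ℝ) ≤ 1 := by rw [div_le_one (by linarith)]; exact hm1
    have h7 : (2 : ℝ) ≤ m := by exact_mod_cast hm2
    have h8 : 1 / (m : ℝ) ≤ 1 / 2 := one_div_le_one_div_of_le (by norm_num) h7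
    nlinarith
  have hd : dist v w ^ 2 = ∑ j, (v.1 j) ^ 2 + ∑ j, (w.1 j) ^ 2 - 2 * ∑ j, v.1 j * w.1 j := by
    rw [Subtype.dist_eq, EuclideanSpace.dist_eq, Real.sq_sqrt (by positivity),
      ← Finset.sum_add_distrib, Finset.mul_sum, ← Finset.sum_sub_distrib]
    refine Finset.sum_congr rfl fun j _ => ?_
    rw [Real.dist_eq, sq_abs]; ring
  have h1 : dist v w ^ 2 ≤ 4 - 4 * (1 / m) := by
    have h3 : (2 : ℝ) / m = 2 * (1 / m) := by ring
    nlinarith
  have h4 : 0 < 1 / (m : ℝ) := by positivity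
  have h5 : 1 / (m : ℝ) ≤ 1 := by rw [div_le_one (by linarith)]; exact hm1
  nlinarith [dist_nonneg (x := v) (y := w)]

/-- The index of a coordinate of largest absolute value. -/
theorem exists_idx {m : ℕ} (hm : 0 < m) (v : Ball m) : ∃ i : Fin m, ∀ j, |v.1 j| ≤ |v.1 i| := by
  have : Nonempty (Fin m) := ⟨⟨0, hm⟩⟩
  obtain ⟨i, -, hi⟩ := Finset.exists_max_image (Finset.univ : Finset (Fin m))
    (fun j => |v.1 j|) Finset.univ_nonempty
  exact ⟨i, fun j => hi j (Finset.mem_univ j)⟩

open Classical in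
/-- The class of a point: a number less than `2m`. -/
noncomputable def kl {m : ℕ} (hm : 0 < m) (v : Ball m) : ℕ :=
  if 0 ≤ v.1 (exists_idx hm v).choose then (exists_idx hm v).choose.val
  else m + (exists_idx hm v).choose.val

theorem kl_lt {m : ℕ} (hm : 0 < m) (v : Ball m) : kl hm v < 2 * m := by
  unfold kl
  have := (exists_idx hm v).choose.2
  split_ifs <;> omega

theorem kl_same {m : ℕ} (hm2 : 2 ≤ m) (hm : 0 < m) (v w : Ball m) (h : kl hm v = kl hm w) :
    dist v w ≤ 2 - 1 / m := by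
  have hv := (exists_idx hm v).choose_spec
  have hw := (exists_idx hm w).choose_spec
  unfold kl at h
  set i := (exists_idx hm v).choose
  set j := (exists_idx hm w).choose
  have hi := i.2
  have hj := j.2
  split_ifs at h with h1 h2 h2
  · have : i = j := Fin.ext h
    rw [← this] at hw h2
    exact same_class hm2 v w i hv hw (mul_nonneg h1 h2)
  · omega
  · omega
  · have : i = j := Fin.ext (by omega)
    rw [← this] at hw h2
    push Not at h1 h2
    exact same_class hm2 v w i hv hw (mul_nonneg_of_nonpos_of_nonpos h1.le h2.le)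

/-- The value of a class. -/
noncomputable def val (m c : ℕ) : ℝ := (2 * c + 1) / (2 * m) - 1

theorem val_abs {m c : ℕ} (hm : 0 < m) (hc : c < 2 * m) : |val m c| ≤ 1 - 1 / (2 * m) := by
  have hm' : (0 : ℝ) < m := by exact_mod_cast hm
  have hc' : (c : ℝ) + 1 ≤ 2 * m := by exact_mod_cast hc
  have hc0 : (0 : ℝ) ≤ c := Nat.cast_nonneg c
  have e : val m c = (2 * c + 1) * (1 / (2 * m)) - 1 := by unfold val; ring
  have h1 : (2 * m) * (1 / (2 * m) : ℝ) = 1 := by field_simp
  have h2 : 0 < 1 / (2 * (m : ℝ)) := by positivity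
  rw [e, abs_le]
  constructor <;> nlinarith

theorem val_sep {m c c' : ℕ} (hm : 0 < m) (hc : c ≠ c') : 1 / m ≤ |val m c - val m c'| := by
  have hm' : (0 : ℝ) < m := by exact_mod_cast hm
  have e : val m c - val m c' = ((c : ℝ) - c') * (1 / m) := by
    unfold val; field_simp; ring
  have h2 : 0 < 1 / (m : ℝ) := by positivity
  rw [e, abs_mul, abs_of_pos h2]
  have h3 : (1 : ℝ) ≤ |(c : ℝ) - c'| := by
    rcases Nat.lt_or_gt_of_ne hc with h | h
    · have : (c : ℝ) + 1 ≤ c' := by exact_mod_cast h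
      rw [abs_sub_comm, abs_of_nonneg (by linarith)]; linarith
    · have : (c' : ℝ) + 1 ≤ c := by exact_mod_cast h
      rw [abs_of_nonneg (by linarith)]; linarith
  nlinarith

/-- The projection. -/
noncomputable def pr (n d : ℕ) (v : EE (n + d)) : EE n :=
  WithLp.toLp 2 (fun i => v (Fin.castAdd d i))

/-- The last coordinates are zero. -/
def Flat (n d : ℕ) (v : EE (n + d)) : Prop := ∀ j : Fin d, v (Fin.natAdd n j) = 0

theorem pr_norm_le (n d : ℕ) (v : EE (n + d)) : ‖pr n d v‖ ≤ ‖v‖ := by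
  have h : ‖pr n d v‖ ^ 2 ≤ ‖v‖ ^ 2 := by
    rw [EuclideanSpace.norm_sq_eq, EuclideanSpace.norm_sq_eq, Fin.sum_univ_add]
    have : (0 : ℝ) ≤ ∑ i : Fin d, ‖v (Fin.natAdd n i)‖ ^ 2 :=
      Finset.sum_nonneg fun i _ => sq_nonneg _
    simp only [pr]
    linarith
  exact (abs_le_of_sq_le_sq' h (norm_nonneg _)).2

theorem pr_dist (n d : ℕ) (v w : EE (n + d)) (hv : Flat n d v) (hw : Flat n d w) :
    dist (pr n d v) (pr n d w) = dist v w := by
  rw [EuclideanSpace.dist_eq, EuclideanSpace.dist_eq, Fin.sum_univ_add]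
  simp only [hv _, hw _, dist_self]
  simp [pr]

theorem pr_norm (n d : ℕ) (v : EE (n + d)) (hv : Flat n d v) : ‖pr n d v‖ = ‖v‖ := by
  have h : Flat n d 0 := fun j => rfl
  have h1 := pr_dist n d v 0 hv h
  have h2 : pr n d 0 = 0 := by ext i; simp [pr]
  rw [h2, dist_zero_right, dist_zero_right] at h1
  exact h1

open Classical in
/-- The map of the big ball onto the small one. -/
noncomputable def Ph (n d : ℕ) (hn : 0 < n) (v : Ball (n + d)) : Ball n :=
  if Flat n d v.1 then
    ⟨pr n d v.1, by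
      rw [mem_closedBall_zero_iff]
      exact (pr_norm_le n d v.1).trans (mem_closedBall_zero_iff.mp v.2)⟩
  else ⟨EuclideanSpace.single (⟨0, hn⟩ : Fin n)
      (val (n + d) (kl (show 0 < n + d by omega) v)), by
      rw [mem_closedBall_zero_iff]
      have h1 := val_abs (show 0 < n + d by omega) (kl_lt (show 0 < n + d by omega) v)
      have h2 : (0 : ℝ) ≤ 1 / (2 * ((n + d : ℕ) : ℝ)) := by positivity
      simp only [PiLp.norm_single, Real.norm_eq_abs]
      linarith⟩

theorem upper_general (n d : ℕ) (hn : 0 < n) (hd : 0 < d) :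
    GromovHausdorff.ghDist (Ball n) (Ball (n + d)) ≤ 1 - 1 / (4 * ((n + d : ℕ) : ℝ)) := by
  classical
  have hm : 0 < n + d := by omega
  have hmR : (0 : ℝ) < ((n + d : ℕ) : ℝ) := by exact_mod_cast hm
  set μ : ℝ := 1 / ((n + d : ℕ) : ℝ) with hμ
  have hμ0 : 0 < μ := by positivity
  have hμ1 : μ ≤ 1 := by
    rw [hμ, div_le_one hmR]; exact_mod_cast hm
  have e2 : 1 / (2 * ((n + d : ℕ) : ℝ)) = μ / 2 := by rw [hμ]; field_simp
  have e4 : 1 / (4 * ((n + d : ℕ) : ℝ)) = μ / 4 := by rw [hμ]; field_simp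
  have hc : GromovHausdorff.ghDist (Ball n) (Ball (n + d)) =
      GromovHausdorff.ghDist (Ball (n + d)) (Ball n) := dist_comm _ _
  rw [hc, e4]
  have hflat : ∀ v : Ball (n + d), Flat n d v.1 → (Ph n d hn v).1 = pr n d v.1 := by
    intro v hv; simp only [Ph, if_pos hv]
  have hnot : ∀ v : Ball (n + d), ¬ Flat n d v.1 → (Ph n d hn v).1 =
      EuclideanSpace.single (⟨0, hn⟩ : Fin n) (val (n + d) (kl hm v)) := by
    intro v hv; simp only [Ph, if_neg hv]
  have mixed : ∀ v w : Ball (n + d), Flat n d v.1 → ¬ Flat n d w.1 →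
      |dist v w - dist (Ph n d hn v) (Ph n d hn w)| ≤ 2 - μ / 2 := by
    intro v w hv hw
    have a1 : dist (Ph n d hn v) (Ph n d hn w) = dist (Ph n d hn v).1 (Ph n d hn w).1 := rfl
    have a2 := hflat v hv
    have a3 := hnot w hw
    have b1 : ‖(Ph n d hn v).1‖ = ‖v.1‖ := by rw [a2, pr_norm n d v.1 hv]
    have b2 : ‖(Ph n d hn w).1‖ ≤ 1 - μ / 2 := by
      rw [a3]
      have h1 := val_abs hm (kl_lt hm w)
      rw [e2] at h1
      simpa using h1
    have c1 := mem_closedBall_zero_iff.mp v.2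
    have c2 := mem_closedBall_zero_iff.mp w.2
    have c3 : dist v w ≤ ‖v.1‖ + ‖w.1‖ := by
      rw [Subtype.dist_eq, dist_eq_norm]; exact norm_sub_le _ _
    have c4 : dist (Ph n d hn v).1 (Ph n d hn w).1 ≤ ‖(Ph n d hn v).1‖ + ‖(Ph n d hn w).1‖ := by
      rw [dist_eq_norm]; exact norm_sub_le _ _
    have c5 : ‖(Ph n d hn v).1‖ - ‖(Ph n d hn w).1‖ ≤ dist (Ph n d hn v).1 (Ph n d hn w).1 := by
      rw [dist_eq_norm]; exact norm_sub_norm_le _ _
    have c6 : (0 : ℝ) ≤ dist v w := dist_nonneg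
    have c7 : (0 : ℝ) ≤ dist (Ph n d hn v).1 (Ph n d hn w).1 := dist_nonneg
    rw [a1, abs_le]
    constructor <;> linarith
  have all : ∀ v w : Ball (n + d),
      |dist v w - dist (Ph n d hn v) (Ph n d hn w)| ≤ 2 - μ / 2 := by
    intro v w
    by_cases hv : Flat n d v.1
    · by_cases hw : Flat n d w.1
      · have a1 : dist (Ph n d hn v) (Ph n d hn w) = dist v w := by
          rw [Subtype.dist_eq, hflat v hv, hflat w hw, pr_dist n d _ _ hv hw]; rfl
        rw [a1, sub_self, abs_zero]; linarith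
      · exact mixed v w hv hw
    · by_cases hw : Flat n d w.1
      · have := mixed w v hw hv
        rwa [dist_comm w v, dist_comm (Ph n d hn w) (Ph n d hn v)] at this
      · have a1 : dist (Ph n d hn v) (Ph n d hn w) =
            |val (n + d) (kl hm v) - val (n + d) (kl hm w)| := by
          rw [Subtype.dist_eq, hnot v hv, hnot w hw, dist_eq_norm]
          have : (EuclideanSpace.single (⟨0, hn⟩ : Fin n) (val (n + d) (kl hm v)) : EE n) -
              EuclideanSpace.single (⟨0, hn⟩ : Fin n) (val (n + d) (kl hm w)) =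
              EuclideanSpace.single (⟨0, hn⟩ : Fin n)
                (val (n + d) (kl hm v) - val (n + d) (kl hm w)) := by
            ext i; by_cases h : i = ⟨0, hn⟩ <;> simp [h]
          rw [this]; simp
        have b1 := val_abs hm (kl_lt hm v)
        have b2 := val_abs hm (kl_lt hm w)
        rw [e2] at b1 b2
        have b3 : |val (n + d) (kl hm v) - val (n + d) (kl hm w)| ≤ 2 - μ := by
          refine (abs_sub _ _).trans ?_
          linarith
        have b4 := dist_ball_le v w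
        have b5 : (0 : ℝ) ≤ dist v w := dist_nonneg
        rw [a1]
        by_cases hk : kl hm v = kl hm w
        · have c1 := kl_same (by omega) hm v w hk
          rw [hk, sub_self, abs_zero, sub_zero, abs_of_nonneg b5]
          have : 1 / ((n + d : ℕ) : ℝ) = μ := rfl
          rw [this] at c1
          linarith
        · have c1 := val_sep hm hk
          have : 1 / ((n + d : ℕ) : ℝ) = μ := rfl
          rw [this] at c1
          rw [abs_le]; constructor <;> linarith
  have := GromovHausdorff.ghDist_le_of_approx_subsets (X := Ball (n + d)) (Y := Ball n)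
    (s := Set.univ) (fun v => Ph n d hn v.1) (ε₁ := 0) (ε₂ := 2 - μ / 2) (ε₃ := 0)
    (fun x => ⟨x, mem_univ _, by simp⟩)
    (by
      intro u
      let g : EE (n + d) := WithLp.toLp 2 (Fin.append (fun i => u.1 i) (fun _ : Fin d => (0 : ℝ)))
      have hg : Flat n d g := by intro j; simp [g]
      have hgp : pr n d g = u.1 := by ext i; simp [pr, g]
      have hgn : ‖g‖ ≤ 1 := by
        rw [← pr_norm n d g hg, hgp]; exact mem_closedBall_zero_iff.mp u.2
      refine ⟨⟨⟨g, mem_closedBall_zero_iff.mpr hgn⟩, mem_univ _⟩, ?_⟩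
      have : Ph n d hn ⟨g, mem_closedBall_zero_iff.mpr hgn⟩ = u := by
        apply Subtype.ext
        rw [hflat _ hg, hgp]
      rw [this, dist_self])
    (fun v w => all v.1 w.1)
  linarith

end Pool.Agent.K4H96.GH
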